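import Pool.Agent.Helper34.ST.Basic

/-!
# Oriented paths: module SCC (a closed strongly connected set and its period)
-/

set_option autoImplicit false

namespace Pool.Agent.Helper34.ST

theorem scc_closed {ι : Type} {r : ι → ι → Prop} {C : Set ι} (hC : ∀ x ∈ C, ∀ y, r x y → y ∈ C)
    {n : ℕ} {x y : ι} (hx : x ∈ C) (h : Pth r n x y) : y ∈ C := by
  obtain ⟨p, h0, hn, hp⟩ := h
  have key : ∀ i, i ≤ n → p i ∈ C := by
    intro i
    induction i with
    | zero => intro _; rw [h0]; exact hx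
    | succ i ih => intro hi; exact hC _ (ih (by omega)) _ (hp i (by omega))
  rw [← hn]
  exact key n le_rfl

theorem scc_head {ι : Type} {r : ι → ι → Prop} {n : ℕ} {x y : ι} (h : Pth r (n + 1) x y) :
    ∃ w, Pth r n x w ∧ r w y := by
  obtain ⟨p, h0, hn, hp⟩ := h
  refine ⟨p n, ⟨p, h0, rfl, fun i hi => hp i (by omega)⟩, ?_⟩
  rw [← hn]
  exact hp n (by omega)

theorem st_SCC : ST_SCC := by
  intro ι _ _ r hr
  classical
  let S : Set (Set ι) := {D | D.Nonempty ∧ ∀ x ∈ D, ∀ y, r x y → y ∈ D}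
  have hS : S.Nonempty := ⟨Set.univ, Set.univ_nonempty, fun _ _ _ _ => Set.mem_univ _⟩
  obtain ⟨C, hCS, hmin⟩ := (measure (fun D : Set ι => D.ncard)).wf.has_min S hS
  obtain ⟨hCne, hC⟩ := hCS
  have hstr : ∀ x ∈ C, ∀ y ∈ C, ∃ n, Pth r (n + 1) x y := by
    intro x hx
    have hsub : {y | ∃ n, Pth r (n + 1) x y} ⊆ C := by
      rintro y ⟨n, hn⟩
      exact scc_closed hC hx hn
    have hmem : {y | ∃ n, Pth r (n + 1) x y} ∈ S := by
      refine ⟨?_, ?_⟩
      · obtain ⟨y, hy⟩ := exists_pth_out hr 1 x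
        exact ⟨y, 0, hy⟩
      · rintro y ⟨n, hn⟩ w hw
        exact ⟨n + 1, hn.append (Pth.one hw)⟩
    have hle : C.ncard ≤ {y | ∃ n, Pth r (n + 1) x y}.ncard := by
      have := hmin _ hmem
      exact not_lt.1 this
    have heq := Set.eq_of_subset_of_ncard_le hsub hle (Set.toFinite _)
    intro y hy
    rw [← heq] at hy
    exact hy
  obtain ⟨x0, hx0⟩ := hCne
  let Lam : AddSubmonoid ℕ :=
    { carrier := {n | Pth r n x0 x0}
      add_mem' := fun {a b} ha hb => Pth.append ha hb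
      zero_mem' := Pth.zero x0 }
  have hLam : ∀ n, n ∈ Lam ↔ Pth r n x0 x0 := fun n => Iff.rfl
  let g : ℕ := Nat.setGcd (Lam : Set ℕ)
  have hdvd : ∀ n, Pth r n x0 x0 → g ∣ n := fun n hn => Nat.setGcd_dvd_of_mem hn
  have hg : 1 ≤ g := by
    obtain ⟨n, hn⟩ := hstr x0 hx0 x0 hx0
    have := hdvd _ hn
    rcases Nat.eq_zero_or_pos g with h | h
    · rw [h] at this
      have := Nat.eq_zero_of_zero_dvd this
      omega
    · exact h
  have ha : ∀ x, ∃ n, x ∈ C → Pth r n x x0 := by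
    intro x
    by_cases hx : x ∈ C
    · obtain ⟨n, hn⟩ := hstr x hx x0 hx0
      exact ⟨n + 1, fun _ => hn⟩
    · exact ⟨0, fun h => absurd h hx⟩
  have hb : ∀ y, ∃ n, y ∈ C → Pth r n x0 y := by
    intro y
    by_cases hy : y ∈ C
    · obtain ⟨n, hn⟩ := hstr x0 hx0 y hy
      exact ⟨n + 1, fun _ => hn⟩
    · exact ⟨0, fun h => absurd h hy⟩
  choose a ha using ha
  choose b hb using hb
  have hab : ∀ y ∈ C, ∀ n, Pth r n x0 y → ((n : ℕ) : ZMod g) + (a y : ZMod g) = 0 := by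
    intro y hy n hn
    have h1 : g ∣ n + a y := hdvd _ (hn.append (ha y hy))
    have h2 : ((n + a y : ℕ) : ZMod g) = 0 := (ZMod.natCast_eq_zero_iff _ _).2 h1
    rw [Nat.cast_add] at h2
    exact h2
  obtain ⟨n0, hn0⟩ := Nat.exists_mem_closure_of_ge (Lam : Set ℕ)
  rw [AddSubmonoid.closure_eq] at hn0
  have hA : ∀ x, a x ≤ Finset.univ.sup a := fun x => Finset.le_sup (Finset.mem_univ x)
  have hB : ∀ x, b x ≤ Finset.univ.sup b := fun x => Finset.le_sup (Finset.mem_univ x)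
  refine ⟨C, g, fun y => (b y : ZMod g), n0 + Finset.univ.sup a + Finset.univ.sup b, ⟨x0, hx0⟩, hg,
    ?_, ?_, ?_⟩
  · intro x hx y hxy
    have hy : y ∈ C := hC x hx y hxy
    refine ⟨hy, ?_⟩
    have h1 := hab y hy (b x + 1) ((hb x hx).append (Pth.one hxy))
    have h2 := hab y hy (b y) (hb y hy)
    rw [Nat.cast_add, Nat.cast_one] at h1
    have h3 : ((b y : ℕ) : ZMod g) + (a y : ZMod g) = ((b x : ℕ) : ZMod g) + 1 + (a y : ZMod g) := by
      rw [h1, h2]
    exact add_right_cancel h3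
  · intro x hx
    obtain ⟨n, hn⟩ := hstr x hx x hx
    obtain ⟨w, hw, hwx⟩ := scc_head hn
    exact ⟨w, scc_closed hC hx hw, hwx⟩
  · intro x hx y hy n hn hcy
    have h1 := hA x
    have h2 := hB y
    obtain ⟨m, hm⟩ : ∃ m, n = a x + m + b y := ⟨n - a x - b y, by omega⟩
    have h3 : g ∣ m := by
      rw [← ZMod.natCast_eq_zero_iff]
      have h4 := hab x hx (b x) (hb x hx)
      simp only at hcy
      rw [hm, Nat.cast_add, Nat.cast_add] at hcy
      have h5 : (m : ZMod g) = ((b y : ℕ) : ZMod g) - (b y : ZMod g) - ((b x : ZMod g) + (a x : ZMod g)) := by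
        nth_rewrite 1 [hcy]
        ring
      rw [h5, h4]
      ring
    have h4 : m ∈ Lam := hn0 m (by omega) h3
    have h5 : Pth r m x0 x0 := h4
    rw [hm]
    exact ((ha x hx).append h5).append (hb y hy)

end Pool.Agent.Helper34.ST
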